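import Mathlib

/-!
# Generalised binomial coefficients and the binomial series
-/

set_option autoImplicit false

open Filter Topology

namespace Q73.Brannan

/-- the generalised binomial coefficient `α (α - 1) ⋯ (α - k + 1) / k!` -/
noncomputable def bc (α : ℝ) (k : ℕ) : ℝ := (∏ j ∈ Finset.range k, (α - (j : ℝ))) / (k.factorial : ℝ)

theorem bc_zero (α : ℝ) : bc α 0 = 1 := by simp [bc]

theorem bc_succ (α : ℝ) (k : ℕ) : bc α (k + 1) = bc α k * (α - k) / (k + 1) := by
  unfold bc
  rw [Finset.prod_range_succ, Nat.factorial_succ]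
  have h1 : ((k.factorial : ℝ)) ≠ 0 := by exact_mod_cast k.factorial_ne_zero
  have h2 : ((k : ℝ) + 1) ≠ 0 := by positivity
  push_cast
  field_simp

theorem bc_succ_mul (α : ℝ) (k : ℕ) : ((k : ℝ) + 1) * bc α (k + 1) = bc α k * (α - k) := by
  rw [bc_succ]
  have h2 : ((k : ℝ) + 1) ≠ 0 := by positivity
  field_simp

/-- absorption identity -/
theorem bc_absorb (α : ℝ) (k : ℕ) : ((k : ℝ) + 1) * bc α (k + 1) = α * bc (α - 1) k := by
  induction k with
  | zero => simp [bc_succ, bc_zero]
  | succ k ih =>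
    rw [bc_succ_mul, bc_succ (α - 1) k]
    have h2 : ((k : ℝ) + 1) ≠ 0 := by positivity
    have h3 : bc α (k + 1) = α * bc (α - 1) k / (k + 1) := by
      field_simp
      linarith [ih]
    rw [h3]
    push_cast
    field_simp
    ring

/-- Pascal's rule -/
theorem bc_pascal (α : ℝ) (k : ℕ) : bc (α + 1) (k + 1) = bc α (k + 1) + bc α k := by
  have h2 : ((k : ℝ) + 1) ≠ 0 := by positivity
  have h1 := bc_absorb (α + 1) k
  rw [add_sub_cancel_right] at h1
  have h3 := bc_succ_mul α k
  have : ((k : ℝ) + 1) * bc (α + 1) (k + 1) = ((k : ℝ) + 1) * (bc α (k + 1) + bc α k) := by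
    rw [h1, mul_add, h3]
    ring
  exact mul_left_cancel₀ h2 this

theorem bc_pascal' (α : ℝ) (k : ℕ) : bc α (k + 1) = bc (α - 1) (k + 1) + bc (α - 1) k := by
  have := bc_pascal (α - 1) k
  rwa [sub_add_cancel] at this

/-- the alternating partial sums -/
theorem alt_sum (α : ℝ) (n : ℕ) :
    ∑ k ∈ Finset.range (n + 1), (-1 : ℝ) ^ k * bc α k = (-1) ^ n * bc (α - 1) n := by
  induction n with
  | zero => simp [bc_zero]
  | succ n ih =>
    rw [Finset.sum_range_succ, ih, bc_pascal' α n]
    ring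

theorem choose_eq_bc (α : ℝ) (k : ℕ) : Ring.choose α k = bc α k := by
  have h : ∀ k : ℕ, (descPochhammer ℤ k).smeval α = ∏ j ∈ Finset.range k, (α - (j : ℝ)) := by
    intro k
    induction k with
    | zero => simp
    | succ k ih =>
      rw [Finset.prod_range_succ, ← ih]
      simp [descPochhammer_succ_right, Polynomial.smeval_mul, Polynomial.smeval_natCast]
  rw [Ring.choose_eq_smul, h, bc, smul_eq_mul, inv_mul_eq_div]

/-- the binomial series -/
theorem hasSum_bc (α : ℝ) {x : ℂ} (hx : ‖x‖ < 1) :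
    HasSum (fun k : ℕ => (bc α k : ℂ) * x ^ k) ((1 + x) ^ (α : ℂ)) := by
  have h := (Complex.one_add_cpow_hasFPowerSeriesOnBall_zero (a := (α : ℂ))).hasSum (y := x) (by
    rw [← ENNReal.ofReal_one, Metric.eball_ofReal]
    simpa using hx)
  rw [zero_add] at h
  have e : (fun k : ℕ => (bc α k : ℂ) * x ^ k) =
      fun n => (binomialSeries ℂ (α : ℂ) n) fun _ => x := by
    funext k
    rw [binomialSeries_apply, ← Complex.ofReal_choose, choose_eq_bc]
    simp
  rw [e]
  exact h

end Q73.Brannan
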