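import Pool.Agent.Q73.Brannan.Large

/-!
# An integral formula for the coefficients, `0 < α < 1`
-/

set_option autoImplicit false

open Filter Topology MeasureTheory

namespace Q73.Brannan

/-- the weight `t^{-α} (1-t)^α` -/
noncomputable def wt (α t : ℝ) : ℝ := t ^ (-α) * (1 - t) ^ α

/-- its moments -/
noncomputable def Bt (α : ℝ) (k : ℕ) : ℝ := ∫ t in (0:ℝ)..1, t ^ k * wt α t

theorem wt_nonneg {α t : ℝ} (h0 : 0 ≤ t) (h1 : t ≤ 1) : 0 ≤ wt α t :=
  mul_nonneg (Real.rpow_nonneg h0 _) (Real.rpow_nonneg (by linarith) _)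

theorem wt_intervalIntegrable {α : ℝ} (h0 : 0 < α) (h1 : α < 1) :
    IntervalIntegrable (wt α) volume 0 1 := by
  unfold wt
  apply IntervalIntegrable.mul_continuousOn
  · exact intervalIntegral.intervalIntegrable_rpow' (by linarith)
  · exact (Continuous.rpow_const (by fun_prop) fun _ => Or.inr h0.le).continuousOn

theorem mul_wt_intervalIntegrable {α : ℝ} (h0 : 0 < α) (h1 : α < 1) {f : ℝ → ℝ}
    (hf : ContinuousOn f (Set.Icc 0 1)) :
    IntervalIntegrable (fun t => f t * wt α t) volume 0 1 := by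
  apply (wt_intervalIntegrable h0 h1).continuousOn_mul
  rwa [Set.uIcc_of_le zero_le_one]

theorem Bt_rec {α : ℝ} (h0 : 0 < α) (h1 : α < 1) (k : ℕ) :
    ((k : ℝ) + 1 - α) * Bt α k = ((k : ℝ) + 2) * Bt α (k + 1) := by
  have hk : (0 : ℝ) ≤ k := k.cast_nonneg
  set F : ℝ → ℝ := fun t => t ^ ((k : ℝ) + 1 - α) * (1 - t) ^ (α + 1) with hF
  set F' : ℝ → ℝ := fun t => ((k : ℝ) + 1 - α) * (t ^ k * wt α t) -
    ((k : ℝ) + 2) * (t ^ (k + 1) * wt α t) with hF'
  have hint : IntervalIntegrable F' volume 0 1 :=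
    ((mul_wt_intervalIntegrable h0 h1 (by fun_prop)).const_mul _).sub
      ((mul_wt_intervalIntegrable h0 h1 (by fun_prop)).const_mul _)
  have hcont : ContinuousOn F (Set.Icc 0 1) := by
    have c1 : Continuous fun t : ℝ => t ^ ((k : ℝ) + 1 - α) :=
      Continuous.rpow_const continuous_id fun _ => Or.inr (by linarith)
    have c2 : Continuous fun t : ℝ => (1 - t) ^ (α + 1) :=
      Continuous.rpow_const (by fun_prop) fun _ => Or.inr (by linarith)
    exact (c1.mul c2).continuousOn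
  have hder : ∀ t ∈ Set.Ioo (0:ℝ) 1, HasDerivAt F (F' t) t := by
    intro t ht
    have ht0 : 0 < t := ht.1
    have ht1 : 0 < 1 - t := by linarith [ht.2]
    have d1 : HasDerivAt (fun t : ℝ => t ^ ((k : ℝ) + 1 - α))
        (((k : ℝ) + 1 - α) * t ^ ((k : ℝ) + 1 - α - 1)) t :=
      Real.hasDerivAt_rpow_const (Or.inl ht0.ne')
    have d2 : HasDerivAt (fun t : ℝ => (1 - t) ^ (α + 1))
        (-1 * (α + 1) * (1 - t) ^ (α + 1 - 1)) t := by
      have := ((hasDerivAt_const t (1:ℝ)).sub (hasDerivAt_id t)).rpow_const (p := α + 1)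
        (Or.inl (by simpa using ht1.ne'))
      simpa using this
    refine (d1.mul d2).congr_deriv ?_
    simp only [hF', wt]
    have e1 : t ^ ((k : ℝ) + 1 - α - 1) = t ^ k * t ^ (-α) := by
      rw [← Real.rpow_natCast, ← Real.rpow_add ht0]
      congr 1
      ring
    have e2 : t ^ ((k : ℝ) + 1 - α) = t ^ (k + 1) * t ^ (-α) := by
      rw [← Real.rpow_natCast, ← Real.rpow_add ht0]
      congr 1
      push_cast
      ring
    have e3 : (1 - t) ^ (α + 1) = (1 - t) ^ α * (1 - t) := by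
      rw [Real.rpow_add ht1, Real.rpow_one]
    rw [e1, e2, e3, add_sub_cancel_right, pow_succ]
    ring
  have h := intervalIntegral.integral_eq_sub_of_hasDerivAt_of_le zero_le_one hcont hder hint
  have hF0 : F 0 = 0 := by
    simp only [hF]
    rw [Real.zero_rpow (by linarith), zero_mul]
  have hF1 : F 1 = 0 := by
    simp only [hF]
    rw [sub_self, Real.zero_rpow (by linarith), mul_zero]
  rw [hF0, hF1, sub_zero, hF', intervalIntegral.integral_sub
    ((mul_wt_intervalIntegrable h0 h1 (by fun_prop)).const_mul _)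
      ((mul_wt_intervalIntegrable h0 h1 (by fun_prop)).const_mul _),
    intervalIntegral.integral_const_mul, intervalIntegral.integral_const_mul] at h
  unfold Bt
  linarith

theorem Bt_zero_ge {α : ℝ} (h0 : 0 < α) (h1 : α < 1) : 1 ≤ Bt α 0 := by
  have hi := wt_intervalIntegrable h0 h1
  have hi' : IntervalIntegrable (fun t => wt α (1 - t)) volume 0 1 := by
    have := hi.comp_sub_left 1
    simpa using this.symm
  have hs : ∫ t in (0:ℝ)..1, wt α (1 - t) = ∫ t in (0:ℝ)..1, wt α t := by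
    rw [intervalIntegral.integral_comp_sub_left (fun t => wt α t) 1]
    simp
  have hsum : ∫ t in (0:ℝ)..1, (wt α t + wt α (1 - t)) = 2 * Bt α 0 := by
    rw [intervalIntegral.integral_add hi hi', hs]
    unfold Bt
    simp only [pow_zero, one_mul]
    ring
  have hle : ∫ t in (0:ℝ)..1, (2:ℝ) ≤ ∫ t in (0:ℝ)..1, (wt α t + wt α (1 - t)) := by
    apply intervalIntegral.integral_mono_on_of_le_Ioo zero_le_one (by simp) (hi.add hi')
    intro t ht
    have ht0 : 0 < t := ht.1
    have ht1 : 0 < 1 - t := by linarith [ht.2]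
    unfold wt
    rw [sub_sub_cancel, Real.rpow_neg ht0.le, Real.rpow_neg ht1.le]
    have p1 : 0 < t ^ α := Real.rpow_pos_of_pos ht0 _
    have p2 : 0 < (1 - t) ^ α := Real.rpow_pos_of_pos ht1 _
    have : (t ^ α)⁻¹ * (1 - t) ^ α + ((1 - t) ^ α)⁻¹ * t ^ α - 2 =
        ((1 - t) ^ α - t ^ α) ^ 2 / (t ^ α * (1 - t) ^ α) := by
      field_simp
      ring
    have h3 : 0 ≤ ((1 - t) ^ α - t ^ α) ^ 2 / (t ^ α * (1 - t) ^ α) := by positivity
    linarith
  rw [hsum] at hle
  simp at hle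
  linarith

/-- the constant `κ` -/
noncomputable def kap (α : ℝ) : ℝ := α / Bt α 0

theorem kap_nonneg {α : ℝ} (h0 : 0 < α) (h1 : α < 1) : 0 ≤ kap α :=
  div_nonneg h0.le (by linarith [Bt_zero_ge h0 h1])

theorem kap_le {α : ℝ} (h0 : 0 < α) (h1 : α < 1) : kap α ≤ α := by
  unfold kap
  have := Bt_zero_ge h0 h1
  rw [div_le_iff₀ (by linarith)]
  nlinarith

theorem bc_eq_kap {α : ℝ} (h0 : 0 < α) (h1 : α < 1) (k : ℕ) :
    bc α (k + 1) = (-1) ^ k * kap α * Bt α k := by
  induction k with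
  | zero =>
    have := Bt_zero_ge h0 h1
    rw [bc_succ, bc_zero, kap]
    simp only [pow_zero, Nat.cast_zero, zero_add, one_mul, div_one, sub_zero]
    field_simp
  | succ k ih =>
    have h2 : ((k : ℝ) + 2) ≠ 0 := by positivity
    have hrec := Bt_rec h0 h1 k
    have e : Bt α (k + 1) = ((k : ℝ) + 1 - α) * Bt α k / ((k : ℝ) + 2) := by
      field_simp
      linarith
    rw [bc_succ, ih, e]
    push_cast
    rw [show (k : ℝ) + 1 + 1 = k + 2 by ring]
    field_simp
    ring

end Q73.Brannan
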