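import Pool.Agent.Q73.Brannan.Beta

/-!
# The integral formula for the partial sums, `0 < α < 1`, odd index
-/

set_option autoImplicit false

open Filter Topology MeasureTheory

namespace Q73.Brannan

theorem hasSum_int {α : ℝ} (h0 : 0 < α) (h1 : α < 1) (m : ℕ) {x : ℂ} (hx : ‖x‖ < 1) :
    HasSum (fun k : ℕ => (-x) ^ k * (Bt α (k + m) : ℂ))
      (∫ t in (0:ℝ)..1, ((t ^ m * wt α t : ℝ) : ℂ) * (1 + t * x)⁻¹) := by
  have hcont : ∀ k : ℕ, Continuous fun t : ℝ => ((t : ℂ) ^ m * (-(t * x)) ^ k) := by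
    intro k
    fun_prop
  have hwi := wt_intervalIntegrable h0 h1
  have hmeas : AEStronglyMeasurable (fun t : ℝ => ((wt α t : ℝ) : ℂ))
      (volume.restrict (Set.uIoc (0:ℝ) 1)) := by
    have := (intervalIntegrable_iff.1 hwi).aestronglyMeasurable
    exact Complex.continuous_ofReal.comp_aestronglyMeasurable this
  have key := intervalIntegral.hasSum_integral_of_dominated_convergence (μ := volume) (a := 0) (b := 1)
    (F := fun (k : ℕ) (t : ℝ) => ((wt α t : ℝ) : ℂ) * ((t : ℂ) ^ m * (-(t * x)) ^ k))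
    (f := fun t : ℝ => ((t ^ m * wt α t : ℝ) : ℂ) * (1 + t * x)⁻¹)
    (fun k t => wt α t * ‖x‖ ^ k) ?_ ?_ ?_ ?_ ?_
  · have e : ∀ (k : ℕ) (t : ℝ), ((wt α t : ℝ) : ℂ) * ((t : ℂ) ^ m * (-(t * x)) ^ k) =
        (-x) ^ k * ((t ^ (k + m) * wt α t : ℝ) : ℂ) := by
      intro k t
      push_cast
      rw [show (-((t : ℂ) * x)) = (t : ℂ) * (-x) by ring, mul_pow, pow_add]
      ring
    simp only [e, intervalIntegral.integral_const_mul, intervalIntegral.integral_ofReal] at key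
    exact key
  · intro k
    exact hmeas.mul (hcont k).aestronglyMeasurable
  · intro k
    refine Eventually.of_forall fun t ht => ?_
    rw [Set.uIoc_of_le zero_le_one] at ht
    have hw := wt_nonneg (α := α) ht.1.le ht.2
    rw [norm_mul, Complex.norm_real, Real.norm_eq_abs, abs_of_nonneg hw]
    refine mul_le_mul_of_nonneg_left ?_ hw
    rw [norm_mul, norm_pow, norm_pow, norm_neg, norm_mul, Complex.norm_real, Real.norm_eq_abs,
      abs_of_pos ht.1]
    calc t ^ m * (t * ‖x‖) ^ k ≤ 1 * (1 * ‖x‖) ^ k := by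
          have := ht.1.le
          have h3 := pow_le_one₀ (n := m) ht.1.le ht.2
          gcongr
          exact ht.2
      _ = ‖x‖ ^ k := by rw [one_mul, one_mul]
  · refine Eventually.of_forall fun t _ => ?_
    exact (summable_geometric_of_lt_one (norm_nonneg _) hx).mul_left _
  · simp only [tsum_mul_left]
    exact hwi.mul_const _
  · refine Eventually.of_forall fun t ht => ?_
    rw [Set.uIoc_of_le zero_le_one] at ht
    have hn : ‖-((t : ℂ) * x)‖ < 1 := by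
      rw [norm_neg, norm_mul, Complex.norm_real, Real.norm_eq_abs, abs_of_pos ht.1]
      calc t * ‖x‖ ≤ 1 * ‖x‖ := mul_le_mul_of_nonneg_right ht.2 (norm_nonneg _)
        _ < 1 := by rwa [one_mul]
    have hg := hasSum_geometric_of_norm_lt_one hn
    rw [sub_neg_eq_add] at hg
    have := (hg.mul_left ((t : ℂ) ^ m)).mul_left ((wt α t : ℝ) : ℂ)
    have e : ((t ^ m * wt α t : ℝ) : ℂ) * (1 + t * x)⁻¹ =
        ((wt α t : ℝ) : ℂ) * ((t : ℂ) ^ m * (1 + t * x)⁻¹) := by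
      push_cast
      ring
    rw [e]
    exact this

/-- the integral formula -/
theorem Pn_eq {α : ℝ} (h0 : 0 < α) (h1 : α < 1) {m : ℕ} (hm : Odd m) {x : ℂ} (hx : ‖x‖ < 1) :
    Pn α m x = (1 + x) ^ (α : ℂ) +
      (kap α : ℂ) * x ^ (m + 1) * ∫ t in (0:ℝ)..1, ((t ^ m * wt α t : ℝ) : ℂ) * (1 + t * x)⁻¹ := by
  have ha := (hasSum_nat_add_iff' (m + 1)).2 (hasSum_bc α hx)
  have hb := (hasSum_int h0 h1 m hx).mul_left (-((kap α : ℂ) * x ^ (m + 1)))
  have e : (fun k : ℕ => (bc α (k + (m + 1)) : ℂ) * x ^ (k + (m + 1))) =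
      fun k : ℕ => -((kap α : ℂ) * x ^ (m + 1)) * ((-x) ^ k * (Bt α (k + m) : ℂ)) := by
    funext k
    rw [show k + (m + 1) = (k + m) + 1 by ring, bc_eq_kap h0 h1]
    push_cast
    rw [pow_add (-1 : ℂ) k m, hm.neg_one_pow, neg_pow x k, show k + m + 1 = k + (m + 1) by ring,
      pow_add x k (m + 1)]
    ring
  rw [e] at ha
  have := ha.unique hb
  unfold Pn
  linear_combination -this

theorem one_add_lower {x : ℂ} (hx : ‖x‖ = 1) (s : ℝ) :
    ‖1 + (s : ℂ) * x‖ ^ 2 = (1 - s) ^ 2 + s * ‖1 + x‖ ^ 2 := by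
  have h : x.re * x.re + x.im * x.im = 1 := by
    rw [← Complex.normSq_apply, Complex.normSq_eq_norm_sq, hx]
    norm_num
  rw [← Complex.normSq_eq_norm_sq, ← Complex.normSq_eq_norm_sq, Complex.normSq_apply,
    Complex.normSq_apply]
  simp only [Complex.add_re, Complex.one_re, Complex.add_im, Complex.one_im, Complex.re_ofReal_mul,
    Complex.im_ofReal_mul]
  linear_combination (s ^ 2 - s) * h

theorem one_add_lower' {x : ℂ} (hx : ‖x‖ = 1) {s : ℝ} (h0 : 0 ≤ s) :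
    ‖1 + x‖ / 2 ≤ ‖1 + (s : ℂ) * x‖ := by
  have h := one_add_lower hx s
  have hw : ‖1 + x‖ ≤ 2 := by
    calc ‖1 + x‖ ≤ ‖(1 : ℂ)‖ + ‖x‖ := norm_add_le _ _
      _ = 2 := by rw [hx]; norm_num
  have hw0 := norm_nonneg (1 + x)
  apply le_of_sq_le_sq _ (norm_nonneg _)
  rw [h]
  have h4 : 0 ≤ 4 - ‖1 + x‖ ^ 2 := by nlinarith
  have h5 := mul_nonneg h4 (sq_nonneg (1 - s))
  have h6 := mul_nonneg (sq_nonneg ‖1 + x‖) (add_nonneg (sq_nonneg s) (mul_nonneg zero_le_two h0))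
  linarith [h5, h6, show (4 - ‖1 + x‖ ^ 2) * (1 - s) ^ 2 + ‖1 + x‖ ^ 2 * (s ^ 2 + 2 * s) =
    4 * ((1 - s) ^ 2 + s * ‖1 + x‖ ^ 2 - (‖1 + x‖ / 2) ^ 2) by ring]

/-- the integral in the upper bound -/
noncomputable def Iw (α : ℝ) (m : ℕ) (w : ℝ) : ℝ :=
  ∫ t in (0:ℝ)..1, t ^ m * wt α t * (Real.sqrt ((1 - t) ^ 2 + t * w ^ 2))⁻¹

theorem norm_eq_sqrt {x : ℂ} (hx : ‖x‖ = 1) (s : ℝ) :
    ‖1 + (s : ℂ) * x‖ = Real.sqrt ((1 - s) ^ 2 + s * ‖1 + x‖ ^ 2) := by
  rw [← one_add_lower hx s, Real.sqrt_sq (norm_nonneg _)]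

/-- the upper bound for the modulus -/
theorem norm_Pn_le {α : ℝ} (h0 : 0 < α) (h1 : α < 1) {m : ℕ} (hm : Odd m) {x : ℂ} (hx : ‖x‖ = 1)
    (hne : 1 + x ≠ 0) :
    ‖Pn α m x‖ ≤ ‖1 + x‖ ^ α + kap α * Iw α m ‖1 + x‖ := by
  have hwpos : 0 < ‖1 + x‖ := norm_pos_iff.2 hne
  set w := ‖1 + x‖ with hw
  have hwi := wt_intervalIntegrable h0 h1
  have hmeas : AEStronglyMeasurable (fun t : ℝ => wt α t)
      (volume.restrict (Set.uIoc (0:ℝ) 1)) := (intervalIntegrable_iff.1 hwi).aestronglyMeasurable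
  -- the bounds for `r < 1`
  have hr : ∀ r : ℝ, 0 < r → r < 1 → ‖Pn α m (r * x)‖ ≤ ‖1 + r * x‖ ^ α +
      kap α * ∫ t in (0:ℝ)..1, t ^ m * wt α t * ‖1 + ((t * r : ℝ) : ℂ) * x‖⁻¹ := by
    intro r hr0 hr1
    have hrx : ‖(r : ℂ) * x‖ < 1 := by
      rw [norm_mul, Complex.norm_real, Real.norm_eq_abs, abs_of_pos hr0, hx, mul_one]
      exact hr1
    rw [Pn_eq h0 h1 hm hrx]
    refine (norm_add_le _ _).trans (add_le_add ?_ ?_)
    · rw [Complex.norm_cpow_real]
    · rw [norm_mul, norm_mul, Complex.norm_real, Real.norm_eq_abs, abs_of_nonneg (kap_nonneg h0 h1),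
        mul_assoc]
      refine mul_le_mul_of_nonneg_left ?_ (kap_nonneg h0 h1)
      have h2 : ‖∫ t in (0:ℝ)..1, ((t ^ m * wt α t : ℝ) : ℂ) * (1 + t * (r * x))⁻¹‖ ≤
          ∫ t in (0:ℝ)..1, t ^ m * wt α t * ‖1 + ((t * r : ℝ) : ℂ) * x‖⁻¹ := by
        refine (intervalIntegral.norm_integral_le_integral_norm zero_le_one).trans (le_of_eq ?_)
        refine intervalIntegral.integral_congr fun t ht => ?_
        rw [Set.uIcc_of_le zero_le_one] at ht
        rw [norm_mul, norm_inv, Complex.norm_real, Real.norm_eq_abs, abs_of_nonneg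
          (mul_nonneg (pow_nonneg ht.1 _) (wt_nonneg ht.1 ht.2))]
        congr 3
        push_cast
        ring
      have h3 : ‖((r : ℂ) * x) ^ (m + 1)‖ ≤ 1 := by
        rw [norm_pow]
        exact pow_le_one₀ (norm_nonneg _) hrx.le
      calc ‖((r : ℂ) * x) ^ (m + 1)‖ *
            ‖∫ t in (0:ℝ)..1, ((t ^ m * wt α t : ℝ) : ℂ) * (1 + t * (r * x))⁻¹‖
          ≤ 1 * ‖∫ t in (0:ℝ)..1, ((t ^ m * wt α t : ℝ) : ℂ) * (1 + t * (r * x))⁻¹‖ :=
            mul_le_mul_of_nonneg_right h3 (norm_nonneg _)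
        _ ≤ _ := by rwa [one_mul]
  -- limits
  have t1 : Tendsto (fun r : ℝ => ‖Pn α m (r * x)‖) (𝓝[<] 1) (𝓝 ‖Pn α m x‖) := by
    have hc : Continuous fun r : ℝ => ‖Pn α m (r * x)‖ :=
      ((continuous_Pn α m).comp (by fun_prop)).norm
    have := (hc.tendsto 1).mono_left (nhdsWithin_le_nhds (s := Set.Iio (1:ℝ)))
    simpa using this
  have t2 : Tendsto (fun r : ℝ => ‖1 + (r : ℂ) * x‖ ^ α) (𝓝[<] 1) (𝓝 (w ^ α)) := by
    have hc : Continuous fun r : ℝ => ‖1 + (r : ℂ) * x‖ ^ α :=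
      Continuous.rpow_const (by fun_prop) fun _ => Or.inr h0.le
    have := (hc.tendsto 1).mono_left (nhdsWithin_le_nhds (s := Set.Iio (1:ℝ)))
    simpa using this
  have t3 : Tendsto (fun r : ℝ => ∫ t in (0:ℝ)..1, t ^ m * wt α t * ‖1 + ((t * r : ℝ) : ℂ) * x‖⁻¹)
      (𝓝[<] 1) (𝓝 (Iw α m w)) := by
    refine intervalIntegral.tendsto_integral_filter_of_dominated_convergence
      (fun t => wt α t * (w / 2)⁻¹) ?_ ?_ (hwi.mul_const _) ?_
    · refine Eventually.of_forall fun r => ?_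
      have c1 : Measurable fun t : ℝ => t ^ m := by fun_prop
      have c2 : Measurable fun t : ℝ => ‖1 + ((t * r : ℝ) : ℂ) * x‖⁻¹ := by
        have : Continuous fun t : ℝ => ‖1 + ((t * r : ℝ) : ℂ) * x‖ := by fun_prop
        exact this.measurable.inv
      exact (c1.aestronglyMeasurable.mul hmeas).mul c2.aestronglyMeasurable
    · filter_upwards [Ioo_mem_nhdsLT (show (0:ℝ) < 1 by norm_num)] with r hrr
      refine Eventually.of_forall fun t ht => ?_
      rw [Set.uIoc_of_le zero_le_one] at ht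
      have hwt := wt_nonneg (α := α) ht.1.le ht.2
      have h4 := one_add_lower' hx (s := t * r) (mul_nonneg ht.1.le hrr.1.le)
      rw [Real.norm_eq_abs, abs_of_nonneg (mul_nonneg (mul_nonneg (pow_nonneg ht.1.le _) hwt)
        (by positivity))]
      refine mul_le_mul ?_ ?_ (by positivity) hwt
      · calc t ^ m * wt α t ≤ 1 * wt α t :=
              mul_le_mul_of_nonneg_right (pow_le_one₀ ht.1.le ht.2) hwt
          _ = _ := one_mul _
      · exact inv_anti₀ (by positivity) h4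
    · refine Eventually.of_forall fun t ht => ?_
      rw [Set.uIoc_of_le zero_le_one] at ht
      have h5 := one_add_lower' hx (s := t) ht.1.le
      have h6 : ‖1 + ((t * 1 : ℝ) : ℂ) * x‖ ≠ 0 := by
        rw [mul_one]
        have : 0 < ‖1 + (t : ℂ) * x‖ := lt_of_lt_of_le (by positivity) h5
        exact this.ne'
      have hc : ContinuousAt (fun r : ℝ => t ^ m * wt α t * ‖1 + ((t * r : ℝ) : ℂ) * x‖⁻¹) 1 := by
        refine ContinuousAt.mul continuousAt_const (ContinuousAt.inv₀ ?_ h6)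
        fun_prop
      have := hc.tendsto.mono_left (nhdsWithin_le_nhds (s := Set.Iio (1:ℝ)))
      rw [mul_one, norm_eq_sqrt hx t] at this
      exact this
  refine le_of_tendsto_of_tendsto t1 (t2.add (t3.const_mul (kap α))) ?_
  filter_upwards [Ioo_mem_nhdsLT (show (0:ℝ) < 1 by norm_num)] with r hrr
  exact hr r hrr.1 hrr.2

/-- the lower bound at `x = 1` -/
theorem Pn_one_ge {α : ℝ} (h0 : 0 < α) (h1 : α < 1) {m : ℕ} (hm : Odd m) :
    2 ^ α + kap α * Iw α m 2 ≤ ∑ k ∈ Finset.range (m + 1), bc α k := by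
  have hwi := wt_intervalIntegrable h0 h1
  have hI : Iw α m 2 = ∫ t in (0:ℝ)..1, t ^ m * wt α t * (1 + t)⁻¹ := by
    unfold Iw
    refine intervalIntegral.integral_congr fun t ht => ?_
    rw [Set.uIcc_of_le zero_le_one] at ht
    rw [show (1 - t) ^ 2 + t * 2 ^ 2 = (1 + t) ^ 2 by ring, Real.sqrt_sq (by linarith [ht.1])]
  have hint : ∀ r : ℝ, 0 ≤ r → IntervalIntegrable (fun t => t ^ m * wt α t * (1 + t * r)⁻¹) volume 0 1 := by
    intro r hr
    have := mul_wt_intervalIntegrable h0 h1 (f := fun t => t ^ m * (1 + t * r)⁻¹) (by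
      refine ContinuousOn.mul (by fun_prop) (ContinuousOn.inv₀ (by fun_prop) ?_)
      intro t ht
      have := ht.1
      positivity)
    convert this using 2
    ring
  have hr : ∀ r : ℝ, 0 < r → r < 1 → (1 + r) ^ α + kap α * r ^ (m + 1) * Iw α m 2 ≤
      ∑ k ∈ Finset.range (m + 1), bc α k * r ^ k := by
    intro r hr0 hr1
    have hrx : ‖(r : ℂ)‖ < 1 := by
      rw [Complex.norm_real, Real.norm_eq_abs, abs_of_pos hr0]
      exact hr1
    have h2 := Pn_eq h0 h1 hm hrx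
    have e1 : Pn α m (r : ℂ) = ((∑ k ∈ Finset.range (m + 1), bc α k * r ^ k : ℝ) : ℂ) := by
      unfold Pn
      push_cast
      rfl
    have e2 : (∫ t in (0:ℝ)..1, ((t ^ m * wt α t : ℝ) : ℂ) * (1 + t * (r : ℂ))⁻¹) =
        ((∫ t in (0:ℝ)..1, t ^ m * wt α t * (1 + t * r)⁻¹ : ℝ) : ℂ) := by
      rw [← intervalIntegral.integral_ofReal]
      congr 1
      funext t
      push_cast
      ring
    have e3 : (1 + (r : ℂ)) ^ (α : ℂ) = (((1 + r) ^ α : ℝ) : ℂ) := by
      rw [Complex.ofReal_cpow (by linarith)]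
      push_cast
      rfl
    rw [e1, e2, e3] at h2
    have h3 : ∑ k ∈ Finset.range (m + 1), bc α k * r ^ k = (1 + r) ^ α +
        kap α * r ^ (m + 1) * ∫ t in (0:ℝ)..1, t ^ m * wt α t * (1 + t * r)⁻¹ := by
      exact_mod_cast h2
    rw [h3, hI]
    refine add_le_add le_rfl (mul_le_mul_of_nonneg_left ?_
      (mul_nonneg (kap_nonneg h0 h1) (by positivity)))
    refine intervalIntegral.integral_mono_on zero_le_one ?_ (hint r hr0.le) ?_
    · simpa using hint 1 zero_le_one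
    · intro t ht
      have h4 := wt_nonneg (α := α) ht.1 ht.2
      refine mul_le_mul_of_nonneg_left ?_ (mul_nonneg (pow_nonneg ht.1 _) h4)
      refine inv_anti₀ ?_ ?_
      · have := ht.1
        positivity
      · nlinarith [ht.1]
  have c1 : Continuous fun r : ℝ => (1 + r) ^ α + kap α * r ^ (m + 1) * Iw α m 2 := by
    have h2 : Continuous fun r : ℝ => (1 + r) ^ α :=
      Continuous.rpow_const (by fun_prop) fun _ => Or.inr h0.le
    exact h2.add (by fun_prop)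
  have c2 : Continuous fun r : ℝ => ∑ k ∈ Finset.range (m + 1), bc α k * r ^ k := by fun_prop
  have t1 := (c1.tendsto 1).mono_left (nhdsWithin_le_nhds (s := Set.Iio (1:ℝ)))
  have t2 := (c2.tendsto 1).mono_left (nhdsWithin_le_nhds (s := Set.Iio (1:ℝ)))
  have := le_of_tendsto_of_tendsto t1 t2 (by
    filter_upwards [Ioo_mem_nhdsLT (show (0:ℝ) < 1 by norm_num)] with r hrr
    exact hr r hrr.1 hrr.2)
  simp only [one_pow, mul_one] at this
  rwa [show (1:ℝ) + 1 = 2 by norm_num] at this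

end Q73.Brannan
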