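import Pool.Agent.Q73.Brannan.Ident

/-!
# The integral inequality
-/

set_option autoImplicit false

open Filter Topology MeasureTheory

namespace Q73.Brannan

theorem inv_sqrt_sub {p q : ℝ} (hp : 0 < p) (hpq : p ≤ q) :
    (Real.sqrt p)⁻¹ - (Real.sqrt q)⁻¹ =
      (q - p) / (Real.sqrt p * Real.sqrt q * (Real.sqrt p + Real.sqrt q)) := by
  have hq : 0 < q := lt_of_lt_of_le hp hpq
  have h1 : 0 < Real.sqrt p := Real.sqrt_pos.2 hp
  have h2 : 0 < Real.sqrt q := Real.sqrt_pos.2 hq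
  have h3 := Real.sq_sqrt hp.le
  have h4 := Real.sq_sqrt hq.le
  rw [eq_div_iff (by positivity)]
  field_simp
  nlinarith

theorem inv_sqrt_diff {p q c : ℝ} (hp : 0 < p) (hpq : p ≤ q) (hc : 0 ≤ c) :
    (Real.sqrt (p + c))⁻¹ - (Real.sqrt (q + c))⁻¹ ≤ (Real.sqrt p)⁻¹ - (Real.sqrt q)⁻¹ := by
  rw [inv_sqrt_sub hp hpq, inv_sqrt_sub (by linarith) (by linarith), add_sub_add_right_eq_sub]
  have hq : 0 < q := lt_of_lt_of_le hp hpq
  have h1 : 0 < Real.sqrt p := Real.sqrt_pos.2 hp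
  have h2 : 0 < Real.sqrt q := Real.sqrt_pos.2 hq
  have h3 : Real.sqrt p ≤ Real.sqrt (p + c) := Real.sqrt_le_sqrt (by linarith)
  have h4 : Real.sqrt q ≤ Real.sqrt (q + c) := Real.sqrt_le_sqrt (by linarith)
  apply div_le_div_of_nonneg_left (by linarith) (by positivity)
  gcongr

/-- the comparison function `h(v) = ∫ y^α / √(y² + v²)` -/
noncomputable def hv (α v : ℝ) : ℝ := ∫ y in (0:ℝ)..1, y ^ α * (Real.sqrt (y ^ 2 + v ^ 2))⁻¹

theorem sq_add_pos {v : ℝ} (hv : 0 < v) (y : ℝ) : 0 < y ^ 2 + v ^ 2 := by positivity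

theorem hv_cont {α : ℝ} (h0 : 0 < α) {v : ℝ} (hv : 0 < v) :
    Continuous fun y : ℝ => y ^ α * (Real.sqrt (y ^ 2 + v ^ 2))⁻¹ := by
  refine (Continuous.rpow_const continuous_id fun _ => Or.inr h0.le).mul (Continuous.inv₀ ?_ ?_)
  · fun_prop
  · intro y
    exact (Real.sqrt_pos.2 (sq_add_pos hv y)).ne'

theorem step_a {α : ℝ} (h0 : 0 < α) (h1 : α < 1) {m : ℕ} (hm : 2 ≤ m) {w : ℝ} (hw : 0 < w)
    (hw2 : w ≤ 2) : Iw α m w - Iw α m 2 ≤ hv α w - hv α 2 := by
  have hm' : (2:ℝ) ≤ m := by exact_mod_cast hm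
  have hint : ∀ v : ℝ, 0 < v → IntervalIntegrable
      (fun t => t ^ m * wt α t * (Real.sqrt ((1 - t) ^ 2 + t * v ^ 2))⁻¹) volume 0 1 := by
    intro v hv
    have := mul_wt_intervalIntegrable h0 h1
      (f := fun t => t ^ m * (Real.sqrt ((1 - t) ^ 2 + t * v ^ 2))⁻¹) (by
      refine ContinuousOn.mul (by fun_prop) (ContinuousOn.inv₀ (by fun_prop) ?_)
      intro t ht
      refine (Real.sqrt_pos.2 ?_).ne'
      rcases eq_or_lt_of_le ht.2 with h | h
      · rw [h]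
        have : 0 < v ^ 2 := by positivity
        linarith [this]
      · have h2 : 0 < (1 - t) ^ 2 := by
          have : 0 < 1 - t := by linarith
          positivity
        have h3 : 0 ≤ t * v ^ 2 := mul_nonneg ht.1 (sq_nonneg _)
        linarith)
    convert this using 2
    ring
  have hsub : ∀ v : ℝ, hv α v =
      ∫ t in (0:ℝ)..1, (1 - t) ^ α * (Real.sqrt ((1 - t) ^ 2 + v ^ 2))⁻¹ := by
    intro v
    unfold hv
    rw [intervalIntegral.integral_comp_sub_left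
      (fun y => y ^ α * (Real.sqrt (y ^ 2 + v ^ 2))⁻¹) 1]
    simp
  have hint2 : ∀ v : ℝ, 0 < v → IntervalIntegrable
      (fun t => (1 - t) ^ α * (Real.sqrt ((1 - t) ^ 2 + v ^ 2))⁻¹) volume 0 1 := by
    intro v hv'
    exact ((hv_cont h0 hv').comp (by fun_prop : Continuous fun t : ℝ => 1 - t)).intervalIntegrable _ _
  unfold Iw
  rw [← intervalIntegral.integral_sub (hint w hw) (hint 2 two_pos), hsub, hsub,
    ← intervalIntegral.integral_sub (hint2 w hw) (hint2 2 two_pos)]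
  apply intervalIntegral.integral_mono_on_of_le_Ioo zero_le_one ((hint w hw).sub (hint 2 two_pos))
    ((hint2 w hw).sub (hint2 2 two_pos))
  intro t ht
  have ht0 : 0 < t := ht.1
  have ht1 : 0 < 1 - t := by linarith [ht.2]
  rw [← mul_sub, ← mul_sub]
  have hst : 0 < Real.sqrt t := Real.sqrt_pos.2 ht0
  -- the weight
  have hwt : t ^ m * wt α t ≤ Real.sqrt t * (1 - t) ^ α := by
    unfold wt
    rw [← mul_assoc]
    refine mul_le_mul_of_nonneg_right ?_ (Real.rpow_nonneg ht1.le _)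
    rw [← Real.rpow_natCast, ← Real.rpow_add ht0, Real.sqrt_eq_rpow]
    exact Real.rpow_le_rpow_of_exponent_ge ht0 ht.2.le (by linarith)
  set A := (1 - t) ^ 2 / t with hA
  have hA1 : (1 - t) ^ 2 ≤ A := by
    rw [hA, le_div_iff₀ ht0]
    nlinarith [sq_nonneg (1 - t), ht.2]
  have hs : ∀ v : ℝ, Real.sqrt ((1 - t) ^ 2 + t * v ^ 2) = Real.sqrt t * Real.sqrt (A + v ^ 2) := by
    intro v
    rw [← Real.sqrt_mul ht0.le]
    congr 1
    rw [hA]
    field_simp
  have hd : 0 ≤ (Real.sqrt ((1 - t) ^ 2 + t * w ^ 2))⁻¹ - (Real.sqrt ((1 - t) ^ 2 + t * 2 ^ 2))⁻¹ := by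
    rw [sub_nonneg]
    refine inv_anti₀ (Real.sqrt_pos.2 (by positivity)) (Real.sqrt_le_sqrt ?_)
    have : w ^ 2 ≤ 2 ^ 2 := by nlinarith
    have := mul_le_mul_of_nonneg_left this ht0.le
    linarith
  calc t ^ m * wt α t * ((Real.sqrt ((1 - t) ^ 2 + t * w ^ 2))⁻¹ -
        (Real.sqrt ((1 - t) ^ 2 + t * 2 ^ 2))⁻¹)
      ≤ Real.sqrt t * (1 - t) ^ α * ((Real.sqrt ((1 - t) ^ 2 + t * w ^ 2))⁻¹ -
        (Real.sqrt ((1 - t) ^ 2 + t * 2 ^ 2))⁻¹) := mul_le_mul_of_nonneg_right hwt hd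
    _ = (1 - t) ^ α * ((Real.sqrt (A + w ^ 2))⁻¹ - (Real.sqrt (A + 2 ^ 2))⁻¹) := by
        rw [hs w, hs 2]
        have h5 : 0 < Real.sqrt (A + w ^ 2) := Real.sqrt_pos.2 (by positivity)
        have h6 : 0 < Real.sqrt (A + 2 ^ 2) := Real.sqrt_pos.2 (by positivity)
        field_simp
    _ ≤ _ := by
        refine mul_le_mul_of_nonneg_left ?_ (Real.rpow_nonneg ht1.le _)
        have h7 := inv_sqrt_diff (p := (1 - t) ^ 2 + w ^ 2) (q := (1 - t) ^ 2 + 2 ^ 2)
          (c := A - (1 - t) ^ 2) (by positivity) (by nlinarith) (by linarith)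
        rw [show (1 - t) ^ 2 + w ^ 2 + (A - (1 - t) ^ 2) = A + w ^ 2 by ring,
          show (1 - t) ^ 2 + 2 ^ 2 + (A - (1 - t) ^ 2) = A + 2 ^ 2 by ring] at h7
        exact h7

/-- the derivative of the integrand -/
noncomputable def dk (v y : ℝ) : ℝ := v * ((y ^ 2 + v ^ 2) * Real.sqrt (y ^ 2 + v ^ 2))⁻¹

theorem dk_nonneg {v : ℝ} (hv : 0 < v) (y : ℝ) : 0 ≤ dk v y := by
  unfold dk
  positivity

theorem dk_cont {v : ℝ} (hv : 0 < v) : Continuous (dk v) := by
  unfold dk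
  refine continuous_const.mul (Continuous.inv₀ (by fun_prop) ?_)
  intro y
  have := sq_add_pos hv y
  positivity

theorem hasDerivAt_inv_sqrt {v : ℝ} (hv : 0 < v) (y : ℝ) :
    HasDerivAt (fun v : ℝ => (Real.sqrt (y ^ 2 + v ^ 2))⁻¹) (-dk v y) v := by
  have hp := sq_add_pos hv y
  have hs := Real.sqrt_pos.2 hp
  have h1 : HasDerivAt (fun v : ℝ => y ^ 2 + v ^ 2) (2 * v) v := by
    have := (hasDerivAt_pow 2 v).const_add (y ^ 2)
    simpa using this
  have h2 := (h1.sqrt hp.ne').inv hs.ne'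
  refine h2.congr_deriv ?_
  unfold dk
  rw [Real.sq_sqrt hp.le]
  field_simp

theorem int_dk {v : ℝ} (hv : 0 < v) : ∫ y in (0:ℝ)..1, dk v y ≤ v⁻¹ := by
  have hd : ∀ y ∈ Set.uIcc (0:ℝ) 1,
      HasDerivAt (fun y : ℝ => v⁻¹ * (y * (Real.sqrt (y ^ 2 + v ^ 2))⁻¹)) (dk v y) y := by
    intro y _
    have hp := sq_add_pos hv y
    have hs := Real.sqrt_pos.2 hp
    have h1 : HasDerivAt (fun y : ℝ => y ^ 2 + v ^ 2) (2 * y) y := by
      have := (hasDerivAt_pow 2 y).add_const (v ^ 2)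
      simpa using this
    have h2 := (((hasDerivAt_id y).mul ((h1.sqrt hp.ne').inv hs.ne'))).const_mul v⁻¹
    refine h2.congr_deriv ?_
    unfold dk
    simp only [id_eq, Pi.inv_apply, one_mul]
    rw [Real.sq_sqrt hp.le]
    have h3 := Real.sq_sqrt hp.le
    field_simp
    nlinarith
  rw [intervalIntegral.integral_eq_sub_of_hasDerivAt hd ((dk_cont hv).intervalIntegrable _ _)]
  simp only [zero_mul, mul_zero, sub_zero, one_mul]
  refine mul_le_of_le_one_right (by positivity) ?_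
  refine inv_le_one_of_one_le₀ ?_
  rw [Real.one_le_sqrt]
  nlinarith

theorem int_y_dk {v : ℝ} (hv : 0 < v) : ∫ y in (0:ℝ)..1, y * dk v y ≤ 1 := by
  have hd : ∀ y ∈ Set.uIcc (0:ℝ) 1,
      HasDerivAt (fun y : ℝ => -v * (Real.sqrt (y ^ 2 + v ^ 2))⁻¹) (y * dk v y) y := by
    intro y _
    have hp := sq_add_pos hv y
    have hs := Real.sqrt_pos.2 hp
    have h1 : HasDerivAt (fun y : ℝ => y ^ 2 + v ^ 2) (2 * y) y := by
      have := (hasDerivAt_pow 2 y).add_const (v ^ 2)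
      simpa using this
    have h2 := ((h1.sqrt hp.ne').inv hs.ne').const_mul (-v)
    refine h2.congr_deriv ?_
    unfold dk
    rw [Real.sq_sqrt hp.le]
    field_simp
  rw [intervalIntegral.integral_eq_sub_of_hasDerivAt hd
    ((continuous_id.mul (dk_cont hv)).intervalIntegrable _ _)]
  have h5 : 0 ≤ (Real.sqrt (1 ^ 2 + v ^ 2))⁻¹ := by positivity
  have h6 : Real.sqrt (0 ^ 2 + v ^ 2) = v := by
    rw [show (0:ℝ) ^ 2 + v ^ 2 = v ^ 2 by ring, Real.sqrt_sq hv.le]
  rw [h6]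
  have h7 : -v * v⁻¹ = -1 := by field_simp
  rw [h7]
  nlinarith

theorem int_pow_dk {α : ℝ} (h0 : 0 < α) (h1 : α < 1) {v : ℝ} (hv : 0 < v) :
    ∫ y in (0:ℝ)..1, y ^ α * dk v y ≤ v ^ (α - 1) := by
  have hc := dk_cont hv
  have hc2 : Continuous fun y : ℝ => y ^ α * dk v y :=
    (Continuous.rpow_const continuous_id fun _ => Or.inr h0.le).mul hc
  have hle : ∫ y in (0:ℝ)..1, y ^ α * dk v y ≤
      ∫ y in (0:ℝ)..1, ((1 - α) * v ^ α * dk v y + α * v ^ (α - 1) * (y * dk v y)) := by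
    apply intervalIntegral.integral_mono_on zero_le_one (hc2.intervalIntegrable _ _)
    · exact ((hc.const_mul _).add ((continuous_id.mul hc).const_mul _)).intervalIntegrable _ _
    · intro y hy
      have hAM := Real.geom_mean_le_arith_mean2_weighted (w₁ := α) (w₂ := 1 - α) (p₁ := y) (p₂ := v)
        h0.le (by linarith) hy.1 hv.le (by ring)
      have e : y ^ α = y ^ α * v ^ (1 - α) * v ^ (α - 1) := by
        rw [mul_assoc, ← Real.rpow_add hv]
        simp
      have hvα : v ^ α = v * v ^ (α - 1) := by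
        rw [Real.rpow_sub hv, Real.rpow_one]
        field_simp
      have h3 : y ^ α ≤ (α * y + (1 - α) * v) * v ^ (α - 1) := by
        rw [e]
        exact mul_le_mul_of_nonneg_right hAM (Real.rpow_nonneg hv.le _)
      have h4 := mul_le_mul_of_nonneg_right h3 (dk_nonneg hv y)
      rw [hvα]
      linarith
  refine hle.trans ?_
  have hc3 : Continuous fun y : ℝ => α * v ^ (α - 1) * (y * dk v y) :=
    (continuous_id.mul hc).const_mul _
  rw [intervalIntegral.integral_add ((hc.const_mul _).intervalIntegrable _ _)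
    (hc3.intervalIntegrable _ _),
    intervalIntegral.integral_const_mul, intervalIntegral.integral_const_mul]
  have h5 := int_dk hv
  have h6 := int_y_dk hv
  have h7 : 0 ≤ v ^ α := Real.rpow_nonneg hv.le _
  have h8 : 0 ≤ v ^ (α - 1) := Real.rpow_nonneg hv.le _
  have hvα : v ^ α * v⁻¹ = v ^ (α - 1) := by
    rw [Real.rpow_sub hv, Real.rpow_one]
    field_simp
  calc (1 - α) * v ^ α * (∫ y in (0:ℝ)..1, dk v y) +
        α * v ^ (α - 1) * (∫ y in (0:ℝ)..1, y * dk v y)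
      ≤ (1 - α) * v ^ α * v⁻¹ + α * v ^ (α - 1) * 1 := by
        refine add_le_add (mul_le_mul_of_nonneg_left h5 (mul_nonneg (by linarith) h7))
          (mul_le_mul_of_nonneg_left h6 (mul_nonneg h0.le h8))
    _ = v ^ (α - 1) := by
        rw [mul_assoc, hvα]
        ring

theorem hasDerivAt_hv {α : ℝ} (h0 : 0 < α) {v : ℝ} (hvp : 0 < v) :
    HasDerivAt (hv α) (-∫ y in (0:ℝ)..1, y ^ α * dk v y) v := by
  have key := intervalIntegral.hasDerivAt_integral_of_dominated_loc_of_deriv_le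
    (μ := volume) (a := (0:ℝ)) (b := 1)
    (F := fun v y : ℝ => y ^ α * (Real.sqrt (y ^ 2 + v ^ 2))⁻¹)
    (F' := fun v y : ℝ => y ^ α * (-dk v y)) (x₀ := v) (s := Set.Ioi (v / 2))
    (bound := fun _ => ((v / 2) ^ 2)⁻¹) (Ioi_mem_nhds (by linarith)) ?_ ?_ ?_ ?_ ?_ ?_
  · have h := key.2
    unfold hv
    refine h.congr_deriv ?_
    simp only [mul_neg, intervalIntegral.integral_neg]
  · filter_upwards [Ioi_mem_nhds hvp] with u hu
    exact (hv_cont h0 hu).aestronglyMeasurable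
  · exact (hv_cont h0 hvp).intervalIntegrable _ _
  · have : Continuous fun y : ℝ => y ^ α * (-dk v y) :=
      (Continuous.rpow_const continuous_id fun _ => Or.inr h0.le).mul (dk_cont hvp).neg
    exact this.aestronglyMeasurable
  · refine Eventually.of_forall fun y hy u hu => ?_
    rw [Set.uIoc_of_le zero_le_one] at hy
    have hu' : v / 2 < u := hu
    have hu0 : 0 < u := by linarith
    rw [norm_mul, norm_neg, Real.norm_eq_abs, Real.norm_eq_abs, abs_of_nonneg (Real.rpow_nonneg hy.1.le _),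
      abs_of_nonneg (dk_nonneg hu0 y)]
    have h3 : y ^ α ≤ 1 := Real.rpow_le_one hy.1.le hy.2 h0.le
    have h4 : dk u y ≤ ((v / 2) ^ 2)⁻¹ := by
      unfold dk
      have h5 : u ≤ Real.sqrt (y ^ 2 + u ^ 2) := Real.le_sqrt_of_sq_le (by nlinarith [sq_nonneg y])
      have hs : 0 < Real.sqrt (y ^ 2 + u ^ 2) := by linarith
      have h6 : (v / 2) ^ 2 ≤ y ^ 2 + u ^ 2 := by nlinarith [sq_nonneg y]
      rw [mul_inv]
      calc u * ((y ^ 2 + u ^ 2)⁻¹ * (Real.sqrt (y ^ 2 + u ^ 2))⁻¹)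
          = (u * (Real.sqrt (y ^ 2 + u ^ 2))⁻¹) * (y ^ 2 + u ^ 2)⁻¹ := by ring
        _ ≤ 1 * ((v / 2) ^ 2)⁻¹ := by
            refine mul_le_mul ?_ (inv_anti₀ (by positivity) h6) (by positivity) zero_le_one
            rw [← div_eq_mul_inv, div_le_one hs]
            exact h5
        _ = _ := one_mul _
    calc y ^ α * dk u y ≤ 1 * ((v / 2) ^ 2)⁻¹ :=
          mul_le_mul h3 h4 (dk_nonneg hu0 y) zero_le_one
      _ = _ := one_mul _
  · simp
  · refine Eventually.of_forall fun y _ u hu => ?_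
    have hu' : v / 2 < u := hu
    exact (hasDerivAt_inv_sqrt (by linarith) y).const_mul _

theorem step_b {α : ℝ} (h0 : 0 < α) (h1 : α < 1) {w : ℝ} (hw : 0 < w) (hw2 : w ≤ 2) :
    hv α w - hv α 2 ≤ (2 ^ α - w ^ α) / α := by
  have hmono : MonotoneOn (fun v : ℝ => hv α v + v ^ α / α) (Set.Icc w 2) := by
    have hder : ∀ v : ℝ, 0 < v → HasDerivAt (fun v : ℝ => hv α v + v ^ α / α)
        ((-∫ y in (0:ℝ)..1, y ^ α * dk v y) + v ^ (α - 1)) v := by
      intro v hvp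
      have d1 := hasDerivAt_hv h0 hvp
      have d2 := (Real.hasDerivAt_rpow_const (x := v) (p := α) (Or.inl hvp.ne')).div_const α
      refine (d1.add d2).congr_deriv ?_
      field_simp
    apply monotoneOn_of_deriv_nonneg (convex_Icc _ _)
    · exact fun v hv' => (hder v (by linarith [hv'.1])).continuousAt.continuousWithinAt
    · intro v hv'
      rw [interior_Icc] at hv'
      exact (hder v (by linarith [hv'.1])).differentiableAt.differentiableWithinAt
    · intro v hv'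
      rw [interior_Icc] at hv'
      rw [(hder v (by linarith [hv'.1])).deriv]
      have := int_pow_dk h0 h1 (v := v) (by linarith [hv'.1])
      linarith
  have := hmono (Set.left_mem_Icc.2 hw2) (Set.right_mem_Icc.2 hw2) hw2
  simp only at this
  rw [sub_div]
  linarith

/-- the inequality for `0 < α < 1`, `x ≠ -1` -/
theorem small_ne {α : ℝ} (h0 : 0 < α) (h1 : α < 1) {m : ℕ} (hm : Odd m) (hm2 : 2 ≤ m) {x : ℂ}
    (hx : ‖x‖ = 1) (hne : 1 + x ≠ 0) : ‖Pn α m x‖ ≤ ∑ k ∈ Finset.range (m + 1), bc α k := by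
  have hwpos : 0 < ‖1 + x‖ := norm_pos_iff.2 hne
  have hw2 : ‖1 + x‖ ≤ 2 := by
    calc ‖1 + x‖ ≤ ‖(1 : ℂ)‖ + ‖x‖ := norm_add_le _ _
      _ = 2 := by rw [hx]; norm_num
  have a1 := norm_Pn_le h0 h1 hm hx hne
  have a2 := Pn_one_ge h0 h1 hm
  have a3 := step_a h0 h1 hm2 hwpos hw2
  have a4 := step_b h0 h1 hwpos hw2
  set w := ‖1 + x‖ with hw
  have k0 := kap_nonneg h0 h1
  have k1 := kap_le h0 h1
  have hge : 0 ≤ 2 ^ α - w ^ α := by
    have := Real.rpow_le_rpow hwpos.le hw2 h0.le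
    linarith
  have a5 : kap α * (Iw α m w - Iw α m 2) ≤ 2 ^ α - w ^ α := by
    calc kap α * (Iw α m w - Iw α m 2) ≤ kap α * ((2 ^ α - w ^ α) / α) :=
          mul_le_mul_of_nonneg_left (a3.trans a4) k0
      _ ≤ α * ((2 ^ α - w ^ α) / α) := mul_le_mul_of_nonneg_right k1 (div_nonneg hge h0.le)
      _ = _ := by field_simp
  linarith

theorem small {α : ℝ} (h0 : 0 < α) (h1 : α < 1) {m : ℕ} (hm : Odd m) (hm2 : 2 ≤ m) {x : ℂ}
    (hx : ‖x‖ = 1) : ‖Pn α m x‖ ≤ ∑ k ∈ Finset.range (m + 1), bc α k := by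
  by_cases hne : 1 + x = 0
  · have hxe : x = -1 := by linear_combination hne
    -- approach along the circle
    have hc : Continuous fun θ : ℝ => ‖Pn α m (Complex.exp (θ * Complex.I))‖ :=
      ((continuous_Pn α m).comp (by fun_prop)).norm
    have ht := (hc.tendsto Real.pi).mono_left (nhdsWithin_le_nhds (s := Set.Iio Real.pi))
    simp only [Complex.exp_pi_mul_I] at ht
    rw [hxe]
    refine le_of_tendsto ht ?_
    filter_upwards [Ioo_mem_nhdsLT Real.pi_pos] with θ hθ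
    refine small_ne h0 h1 hm hm2 (Complex.norm_exp_ofReal_mul_I θ) ?_
    intro h
    have h3 : (1 + Complex.exp (θ * Complex.I)).im = 0 := by rw [h]; simp
    rw [Complex.add_im, Complex.one_im, zero_add, Complex.exp_ofReal_mul_I_im] at h3
    exact (Real.sin_pos_of_pos_of_lt_pi hθ.1 hθ.2).ne' h3
  · exact small_ne h0 h1 hm hm2 hx hne

end Q73.Brannan
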