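import Pool.Agent.Q73.Brannan.Basic

/-!
# The case `α ≥ 1`
-/

set_option autoImplicit false

open Filter Topology

namespace Q73.Brannan

/-- partial sums of the binomial series -/
noncomputable def Pn (α : ℝ) (n : ℕ) (x : ℂ) : ℂ := ∑ k ∈ Finset.range (n + 1), (bc α k : ℂ) * x ^ k

theorem abs_bc_tel {α : ℝ} {k : ℕ} (h0 : 0 ≤ α) (h1 : α ≤ k + 1) :
    |bc α (k + 1)| = |bc (α - 1) k| - |bc (α - 1) (k + 1)| := by
  have h2 : (0 : ℝ) < (k : ℝ) + 1 := by positivity
  have e1 : bc (α - 1) (k + 1) = bc (α - 1) k * (-(((k : ℝ) + 1 - α) / (k + 1))) := by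
    rw [bc_succ]
    field_simp
    ring
  have hq : 0 ≤ ((k : ℝ) + 1 - α) / (k + 1) := div_nonneg (by linarith) h2.le
  have hq1 : ((k : ℝ) + 1 - α) / (k + 1) ≤ 1 := (div_le_one h2).2 (by linarith)
  rw [bc_pascal', e1]
  rw [show bc (α - 1) k * (-(((k : ℝ) + 1 - α) / (k + 1))) + bc (α - 1) k =
    bc (α - 1) k * (1 - ((k : ℝ) + 1 - α) / (k + 1)) by ring]
  rw [abs_mul, abs_mul, abs_neg, abs_of_nonneg hq, abs_of_nonneg (by linarith : 0 ≤ 1 - ((k : ℝ) + 1 - α) / (k + 1))]
  ring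

theorem sum_abs_tail {α : ℝ} {n : ℕ} (h0 : 0 ≤ α) (h1 : α ≤ n + 1) (N : ℕ) :
    ∑ k ∈ Finset.range N, |bc α (k + n + 1)| ≤ |bc (α - 1) n| := by
  have : ∑ k ∈ Finset.range N, |bc α (k + n + 1)| = |bc (α - 1) n| - |bc (α - 1) (N + n)| := by
    induction N with
    | zero => simp
    | succ N ih =>
      rw [Finset.sum_range_succ, ih, abs_bc_tel h0 (by push_cast; linarith [N.cast_nonneg (α := ℝ)]),
        show N + 1 + n = N + n + 1 by ring]
      ring
  rw [this]
  linarith [abs_nonneg (bc (α - 1) (N + n))]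

theorem tail_le {α : ℝ} {n : ℕ} (h0 : 0 ≤ α) (h1 : α ≤ n + 1) {x : ℂ} (hx : ‖x‖ < 1) :
    ‖(1 + x) ^ (α : ℂ) - Pn α n x‖ ≤ |bc (α - 1) n| := by
  have h := (hasSum_nat_add_iff' (n + 1)).2 (hasSum_bc α hx)
  refine le_of_tendsto h.tendsto_sum_nat.norm (Eventually.of_forall fun N => ?_)
  refine (norm_sum_le _ _).trans ((Finset.sum_le_sum fun k _ => ?_).trans (sum_abs_tail h0 h1 N))
  rw [norm_mul, norm_pow, Complex.norm_real, Real.norm_eq_abs, show k + (n + 1) = k + n + 1 by ring]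
  exact mul_le_of_le_one_right (abs_nonneg _) (pow_le_one₀ (norm_nonneg _) hx.le)

theorem continuous_Pn (α : ℝ) (n : ℕ) : Continuous (Pn α n) := by
  unfold Pn
  fun_prop

theorem norm_Pn_sub {α : ℝ} {n : ℕ} (h0 : 0 ≤ α) (h1 : α ≤ n + 1) {x : ℂ} (hx : ‖x‖ ≤ 1) :
    |‖Pn α n x‖ - ‖1 + x‖ ^ α| ≤ |bc (α - 1) n| := by
  have hc : Continuous fun r : ℝ => |‖Pn α n (r * x)‖ - ‖1 + r * x‖ ^ α| := by
    have h1 : Continuous fun r : ℝ => ‖Pn α n (r * x)‖ :=
      ((continuous_Pn α n).comp (by fun_prop)).norm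
    have h2 : Continuous fun r : ℝ => ‖1 + (r : ℂ) * x‖ ^ α :=
      Continuous.rpow_const (by fun_prop) fun _ => Or.inr h0
    exact (h1.sub h2).abs
  have ht : Tendsto (fun r : ℝ => |‖Pn α n (r * x)‖ - ‖1 + r * x‖ ^ α|) (𝓝[<] 1)
      (𝓝 |‖Pn α n x‖ - ‖1 + x‖ ^ α|) := by
    have := (hc.tendsto 1).mono_left (nhdsWithin_le_nhds (s := Set.Iio (1:ℝ)))
    simpa using this
  refine le_of_tendsto ht ?_
  filter_upwards [Ioo_mem_nhdsLT (show (0:ℝ) < 1 by norm_num)] with r hr
  have hrx : ‖(r : ℂ) * x‖ < 1 := by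
    rw [norm_mul, Complex.norm_real, Real.norm_eq_abs, abs_of_pos hr.1]
    calc r * ‖x‖ ≤ r * 1 := mul_le_mul_of_nonneg_left hx hr.1.le
      _ < 1 := by linarith [hr.2]
  have h3 := tail_le h0 h1 hrx
  rw [← Complex.norm_cpow_real]
  rw [abs_sub_comm]
  exact (abs_norm_sub_norm_le _ _).trans h3

theorem re_Pn_one {α : ℝ} {n : ℕ} (h0 : 0 ≤ α) (h1 : α ≤ n + 1) :
    2 ^ α - |bc (α - 1) n| ≤ ∑ k ∈ Finset.range (n + 1), bc α k := by
  have hc : Continuous fun r : ℝ => (1 + r) ^ α - ∑ k ∈ Finset.range (n + 1), bc α k * r ^ k := by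
    have h2 : Continuous fun r : ℝ => (1 + r) ^ α :=
      Continuous.rpow_const (by fun_prop) fun _ => Or.inr h0
    exact h2.sub (by fun_prop)
  have ht : Tendsto (fun r : ℝ => (1 + r) ^ α - ∑ k ∈ Finset.range (n + 1), bc α k * r ^ k) (𝓝[<] 1)
      (𝓝 (2 ^ α - ∑ k ∈ Finset.range (n + 1), bc α k)) := by
    have := (hc.tendsto 1).mono_left (nhdsWithin_le_nhds (s := Set.Iio (1:ℝ)))
    simp only [one_pow, mul_one] at this
    convert this using 3
    norm_num
  have hle : 2 ^ α - ∑ k ∈ Finset.range (n + 1), bc α k ≤ |bc (α - 1) n| := by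
    refine le_of_tendsto ht ?_
    filter_upwards [Ioo_mem_nhdsLT (show (0:ℝ) < 1 by norm_num)] with r hr
    have hrx : ‖(r : ℂ)‖ < 1 := by
      rw [Complex.norm_real, Real.norm_eq_abs, abs_of_pos hr.1]
      exact hr.2
    have h3 := tail_le h0 h1 hrx
    have e : (1 + (r : ℂ)) ^ (α : ℂ) - Pn α n r =
        (((1 + r) ^ α - ∑ k ∈ Finset.range (n + 1), bc α k * r ^ k : ℝ) : ℂ) := by
      unfold Pn
      push_cast
      rw [Complex.ofReal_cpow (by linarith [hr.1])]
      push_cast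
      ring
    rw [e, Complex.norm_real] at h3
    exact (le_abs_self _).trans h3
  linarith

/-- smallness of the coefficients -/
theorem abs_bc_le : ∀ (n : ℕ), 1 ≤ n → ∀ a : ℝ, 0 ≤ a → a ≤ n - 1 → |bc a n| ≤ 1 / (4 * n) := by
  intro n hn
  induction n, hn using Nat.le_induction with
  | base =>
    intro a h0 h1
    have : a = 0 := le_antisymm (by simpa using h1) h0
    subst this
    simp [bc_succ, bc_zero]
  | succ n hn ih =>
    intro a h0 h1
    have hn' : (1 : ℝ) ≤ n := by exact_mod_cast hn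
    have hpos : (0 : ℝ) < (n : ℝ) + 1 := by positivity
    push_cast at h1 ⊢
    rcases le_or_gt a (n - 1) with h | h
    · have h2 := ih a h0 h
      rw [bc_succ, abs_div, abs_mul, abs_of_pos hpos]
      have h3 : |a - n| ≤ n := by
        rw [abs_le]
        constructor <;> linarith
      rw [div_le_div_iff₀ hpos (by positivity)]
      calc |bc a n| * |a - n| * (4 * ((n : ℝ) + 1)) ≤ 1 / (4 * n) * n * (4 * ((n : ℝ) + 1)) := by
            gcongr
        _ = 1 * ((n : ℝ) + 1) := by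
            field_simp
    · rcases le_or_gt 1 a with h4 | h4
      · have h5 := ih (a - 1) (by linarith) (by linarith)
        have h6 := bc_absorb a n
        have h7 : bc a (n + 1) = a * bc (a - 1) n / (n + 1) := by
          field_simp
          linarith [h6]
        rw [h7, abs_div, abs_mul, abs_of_pos hpos, abs_of_nonneg h0,
          div_le_div_iff₀ hpos (by positivity)]
        calc a * |bc (a - 1) n| * (4 * ((n : ℝ) + 1)) ≤ n * (1 / (4 * n)) * (4 * ((n : ℝ) + 1)) := by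
              gcongr
              linarith
          _ = 1 * ((n : ℝ) + 1) := by
              field_simp
      · -- `n = 1`
        have hn1 : n = 1 := by
          have : (n : ℝ) < 2 := by linarith
          have : n < 2 := by exact_mod_cast this
          omega
        subst hn1
        rw [bc_succ, bc_succ, bc_zero]
        norm_num
        rw [abs_of_nonpos (by nlinarith)]
        nlinarith [sq_nonneg (2 * a - 1)]

theorem sum_abs_le_two {a : ℝ} (h0 : 0 ≤ a) (h1 : a ≤ 1) (K : ℕ) :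
    ∑ k ∈ Finset.range K, |bc a k| ≤ 2 := by
  cases K with
  | zero => simp
  | succ K =>
    rw [Finset.sum_range_succ']
    have := sum_abs_tail (α := a) (n := 0) h0 (by simpa using h1) K
    simp only [add_zero, bc_zero, abs_one] at this ⊢
    linarith

theorem sum_abs_le {f : ℝ} (h0 : 0 ≤ f) (h1 : f ≤ 1) (N K : ℕ) :
    ∑ k ∈ Finset.range K, |bc (f + N) k| ≤ 2 * 2 ^ N := by
  induction N generalizing K with
  | zero => simpa using sum_abs_le_two h0 h1 K
  | succ N ih =>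
    cases K with
    | zero =>
      simp
    | succ K =>
      rw [Finset.sum_range_succ']
      have h2 : ∀ k ∈ Finset.range K, |bc (f + (N + 1 : ℕ)) (k + 1)| ≤
          |bc (f + N) (k + 1)| + |bc (f + N) k| := by
        intro k _
        rw [show (f + ((N + 1 : ℕ) : ℝ)) = (f + N) + 1 by push_cast; ring, bc_pascal]
        exact abs_add_le _ _
      have h3 := Finset.sum_le_sum h2
      rw [Finset.sum_add_distrib] at h3
      have h4 := ih (K + 1)
      rw [Finset.sum_range_succ'] at h4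
      have h5 := ih K
      simp only [bc_zero, abs_one] at h4 ⊢
      rw [pow_succ]
      linarith

theorem sum_abs_le' {a : ℝ} (h0 : 0 ≤ a) (K : ℕ) :
    ∑ k ∈ Finset.range K, |bc a k| ≤ 2 * 2 ^ a := by
  have h1 : a = (a - ⌊a⌋₊) + (⌊a⌋₊ : ℕ) := by ring
  have h2 := Nat.floor_le h0
  have h3 := Nat.lt_floor_add_one a
  have h4 := sum_abs_le (f := a - ⌊a⌋₊) (by linarith) (by linarith) ⌊a⌋₊ K
  rw [← h1] at h4
  refine h4.trans ?_
  have : (2 : ℝ) ^ ⌊a⌋₊ ≤ 2 ^ a := by
    rw [← Real.rpow_natCast]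
    exact Real.rpow_le_rpow_of_exponent_le (by norm_num) h2
  linarith

end Q73.Brannan
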