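import Pool.Agent.Q73.Brannan.Mono

/-!
# The inequality for `α ≥ 1`
-/

set_option autoImplicit false

open Filter Topology

namespace Q73.Brannan

theorem bc_nonneg {α : ℝ} {k : ℕ} (h : (k : ℝ) - 1 ≤ α) : 0 ≤ bc α k := by
  unfold bc
  refine div_nonneg (Finset.prod_nonneg fun j hj => ?_) (by positivity)
  have : j + 1 ≤ k := Finset.mem_range.1 hj
  have : (j : ℝ) + 1 ≤ k := by exact_mod_cast this
  linarith

/-- the lower bound for the derivative polynomial -/
theorem Q_lower {α : ℝ} {p : ℕ} (h1 : 1 ≤ α) (hp : 2 ≤ p) (hα : α ≤ p + 1) {x : ℂ}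
    (hx : ‖x‖ = 1) (hre : 0 ≤ x.re) :
    2 ^ (α - 1) / 2 ≤ ‖Pn (α - 1) p x‖ ^ 2 := by
  set b := bc (α - 1) (p + 1) with hb
  set Q := Pn (α - 1) p x with hQ
  have hp' : (2 : ℝ) ≤ p := by exact_mod_cast hp
  have hbs : |b| ≤ 1 / 12 := by
    have := abs_bc_le (p + 1) (by omega) (α - 1) (by linarith) (by push_cast; linarith)
    refine this.trans ?_
    push_cast
    rw [div_le_div_iff₀ (by positivity) (by norm_num)]
    linarith
  have hP := norm_Pn_sub (α := α) (n := p + 1) (by linarith) (by push_cast; linarith) (x := x) hx.le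
  have hpas := Pn_pascal α p x
  rw [← hb, ← hQ] at hpas
  rw [← hb] at hP
  have h2 : ‖Pn α (p + 1) x‖ ≤ |b| + ‖1 + x‖ * ‖Q‖ := by
    rw [hpas]
    refine (norm_add_le _ _).trans ?_
    rw [norm_mul, norm_mul, norm_pow, hx, one_pow, mul_one, Complex.norm_real, Real.norm_eq_abs]
  have h3 : ‖1 + x‖ ^ α - |b| ≤ ‖Pn α (p + 1) x‖ := by
    have := (abs_le.1 hP).1
    linarith
  set w := ‖1 + x‖ with hw
  have hw2 : w ^ 2 = 2 + 2 * x.re := by
    rw [hw, ← Complex.normSq_eq_norm_sq, Complex.normSq_apply]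
    have : x.re * x.re + x.im * x.im = 1 := by
      rw [← Complex.normSq_apply, Complex.normSq_eq_norm_sq, hx]
      norm_num
    simp only [Complex.add_re, Complex.one_re, Complex.add_im, Complex.one_im]
    linarith
  have hw0 : 0 ≤ w := norm_nonneg _
  have hwpos : 0 < w := by
    rcases hw0.lt_or_eq with h | h
    · exact h
    · rw [← h] at hw2
      linarith
  have hsq : Real.sqrt 2 ≤ w := by
    rw [show w = Real.sqrt (w ^ 2) by rw [Real.sqrt_sq hw0]]
    exact Real.sqrt_le_sqrt (by linarith)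
  have hs14 : (1.4 : ℝ) ≤ Real.sqrt 2 := by
    rw [show (1.4 : ℝ) = Real.sqrt (1.4 ^ 2) by rw [Real.sqrt_sq (by norm_num)]]
    exact Real.sqrt_le_sqrt (by norm_num)
  -- `w^α = w * w^(α-1)`
  have hwa : w ^ α = w * w ^ (α - 1) := by
    rw [Real.rpow_sub hwpos, Real.rpow_one]
    field_simp
  have hge : Real.sqrt 2 ^ (α - 1) ≤ w ^ (α - 1) :=
    Real.rpow_le_rpow (Real.sqrt_nonneg _) hsq (by linarith)
  set s := Real.sqrt 2 ^ (α - 1) with hs
  have hs1 : 1 ≤ s := Real.one_le_rpow (by linarith) (by linarith)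
  have hss : s ^ 2 = 2 ^ (α - 1) := by
    rw [hs, ← Real.rpow_natCast, ← Real.rpow_mul (Real.sqrt_nonneg _), mul_comm, Real.rpow_mul (Real.sqrt_nonneg _)]
    congr 1
    rw [Real.rpow_natCast, Real.sq_sqrt (by norm_num)]
  have h4 : w * s - 2 * (1 / 12) ≤ w * ‖Q‖ := by
    have : w * s ≤ w ^ α := by
      rw [hwa]
      exact mul_le_mul_of_nonneg_left hge hw0
    linarith
  have h5 : s - 1 / 6 ≤ ‖Q‖ := by
    have h6 : w * (s - 1 / 6) ≤ w * ‖Q‖ := by nlinarith
    exact le_of_mul_le_mul_left h6 hwpos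
  rw [← hss]
  have h7 : 5 / 6 * s ≤ ‖Q‖ := by linarith
  have h8 : (5 / 6 * s) ^ 2 ≤ ‖Q‖ ^ 2 := pow_le_pow_left₀ (by linarith) h7 2
  nlinarith [sq_nonneg s]

theorem deriv_nonpos {α : ℝ} {p : ℕ} (h1 : 1 ≤ α) (hp : 2 ≤ p) (hα : α ≤ p + 1) {θ : ℝ}
    (h0 : 0 ≤ θ) (h2 : θ ≤ Real.pi / 2) :
    -(2 * α) * (Real.sin θ * ‖Pn (α - 1) p (Complex.exp (θ * Complex.I))‖ ^ 2 +
        bc (α - 1) (p + 1) * (Complex.exp (-(p * θ : ℝ) * Complex.I) *
          Pn (α - 1) p (Complex.exp (θ * Complex.I))).im) ≤ 0 := by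
  have hsin : 0 ≤ Real.sin θ := Real.sin_nonneg_of_nonneg_of_le_pi h0 (by linarith [Real.pi_pos])
  have hcos : 0 ≤ (Complex.exp (θ * Complex.I)).re := by
    rw [Complex.exp_ofReal_mul_I_re]
    exact Real.cos_nonneg_of_mem_Icc ⟨by linarith [Real.pi_pos], h2⟩
  have hQ := Q_lower h1 hp hα (Complex.norm_exp_ofReal_mul_I θ) hcos
  have him := im_bound (α - 1) (by linarith) p θ
  have hb := abs_bc_le (p + 1) (by omega) (α - 1) (by linarith) (by push_cast; linarith)
  set x := Complex.exp (θ * Complex.I) with hx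
  set b := bc (α - 1) (p + 1) with hbdef
  set J := (Complex.exp (-(p * θ : ℝ) * Complex.I) * Pn (α - 1) p x).im with hJ
  have h3 : |b * J| ≤ Real.sin θ * (2 ^ (α - 1) / 2) := by
    rw [abs_mul]
    rw [abs_of_nonneg hsin] at him
    have hpow : (0:ℝ) < 2 ^ (α - 1) := Real.rpow_pos_of_pos (by norm_num) _
    calc |b| * |J| ≤ 1 / (4 * ((p + 1 : ℕ) : ℝ)) * (p * Real.sin θ * (2 * 2 ^ (α - 1))) :=
          mul_le_mul hb him (abs_nonneg _) (by positivity)
      _ = (p / (p + 1)) * (Real.sin θ * (2 ^ (α - 1) / 2)) := by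
          push_cast
          field_simp
          ring
      _ ≤ 1 * (Real.sin θ * (2 ^ (α - 1) / 2)) := by
          refine mul_le_mul_of_nonneg_right ?_ (by positivity)
          rw [div_le_one (by positivity)]
          linarith
      _ = _ := one_mul _
  have h4 : Real.sin θ * (2 ^ (α - 1) / 2) ≤ Real.sin θ * ‖Pn (α - 1) p x‖ ^ 2 :=
    mul_le_mul_of_nonneg_left hQ hsin
  have h5 := (abs_le.1 h3).1
  have h6 : 0 ≤ Real.sin θ * ‖Pn (α - 1) p x‖ ^ 2 + b * J := by linarith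
  nlinarith

theorem norm_conj_Pn (α : ℝ) (n : ℕ) (x : ℂ) : ‖Pn α n ((starRingEnd ℂ) x)‖ = ‖Pn α n x‖ := by
  rw [← Complex.norm_conj (Pn α n x)]
  congr 1
  unfold Pn
  simp

theorem right_half {α : ℝ} {p : ℕ} (h1 : 1 ≤ α) (hp : 2 ≤ p) (hα : α ≤ p + 1) {x : ℂ}
    (hx : ‖x‖ = 1) (hre : 0 ≤ x.re) : ‖Pn α (p + 1) x‖ ≤ ‖Pn α (p + 1) 1‖ := by
  -- reduce to `x = exp (θ I)` with `0 ≤ θ ≤ π / 2`
  have key : ∀ θ : ℝ, 0 ≤ θ → θ ≤ Real.pi / 2 →
      ‖Pn α (p + 1) (Complex.exp (θ * Complex.I))‖ ≤ ‖Pn α (p + 1) 1‖ := by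
    intro θ h0 h2
    have hanti : AntitoneOn (fun t : ℝ => ‖Pn α (p + 1) (Complex.exp (t * Complex.I))‖ ^ 2)
        (Set.Icc 0 (Real.pi / 2)) := by
      apply antitoneOn_of_deriv_nonpos (convex_Icc _ _)
      · exact fun t _ => (hasDerivAt_sq α p t).continuousAt.continuousWithinAt
      · exact fun t _ => (hasDerivAt_sq α p t).differentiableAt.differentiableWithinAt
      · intro t ht
        rw [interior_Icc] at ht
        rw [(hasDerivAt_sq α p t).deriv]
        exact deriv_nonpos h1 hp hα ht.1.le ht.2.le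
    have := hanti (Set.left_mem_Icc.2 (by positivity)) ⟨h0, h2⟩ h0
    simp only [Complex.ofReal_zero, zero_mul, Complex.exp_zero] at this
    exact le_of_sq_le_sq this (norm_nonneg _)
  have hx0 : x ≠ 0 := by
    rintro rfl
    simp at hx
  have hxe : Complex.exp (x.arg * Complex.I) = x := by
    have := Complex.norm_mul_exp_arg_mul_I x
    rw [hx] at this
    simpa using this
  have harg : |x.arg| ≤ Real.pi / 2 := Complex.abs_arg_le_pi_div_two_iff.2 hre
  rcases le_total 0 x.arg with h | h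
  · have := key x.arg h (by rwa [abs_of_nonneg h] at harg)
    rwa [hxe] at this
  · have := key (-x.arg) (by linarith) (by rwa [abs_of_nonpos h] at harg)
    have e : Complex.exp ((-x.arg : ℝ) * Complex.I) = (starRingEnd ℂ) x := by
      conv_rhs => rw [← hxe]
      rw [← Complex.exp_conj]
      congr 1
      simp
    rw [e, norm_conj_Pn] at this
    exact this

theorem large {α : ℝ} (h1 : 1 ≤ α) {n : ℕ} (hn : 3 ≤ n) {x : ℂ} (hx : ‖x‖ = 1) :
    ‖Pn α n x‖ ≤ ∑ k ∈ Finset.range (n + 1), bc α k := by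
  obtain ⟨p, rfl⟩ : ∃ p, n = p + 1 := ⟨n - 1, by omega⟩
  have hp : 2 ≤ p := by omega
  have hp' : (2 : ℝ) ≤ p := by exact_mod_cast hp
  rcases le_or_gt (p : ℝ) α with h | h
  · -- all coefficients are nonnegative
    unfold Pn
    refine (norm_sum_le _ _).trans (Finset.sum_le_sum fun k hk => ?_)
    have hk' : k ≤ p + 1 := by
      have := Finset.mem_range.1 hk
      omega
    have hk'' : (k : ℝ) ≤ p + 1 := by exact_mod_cast hk'
    rw [norm_mul, norm_pow, hx, one_pow, mul_one, Complex.norm_real, Real.norm_eq_abs,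
      abs_of_nonneg (bc_nonneg (by linarith))]
  have hα : α ≤ p + 1 := by linarith
  have hbs : |bc (α - 1) (p + 1)| ≤ 1 / 12 := by
    have := abs_bc_le (p + 1) (by omega) (α - 1) (by linarith) (by push_cast; linarith)
    refine this.trans ?_
    push_cast
    rw [div_le_div_iff₀ (by positivity) (by norm_num)]
    linarith
  have hlow := re_Pn_one (α := α) (n := p + 1) (by linarith) (by push_cast; linarith)
  have h2α : (2 : ℝ) ≤ 2 ^ α := by
    conv_lhs => rw [← Real.rpow_one 2]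
    exact Real.rpow_le_rpow_of_exponent_le (by norm_num) h1
  have hone : ‖Pn α (p + 1) 1‖ = ∑ k ∈ Finset.range (p + 1 + 1), bc α k := by
    have e : Pn α (p + 1) 1 = ((∑ k ∈ Finset.range (p + 1 + 1), bc α k : ℝ) : ℂ) := by
      unfold Pn
      push_cast
      simp
    rw [e, Complex.norm_real, Real.norm_eq_abs, abs_of_nonneg (by linarith)]
  rcases le_or_gt 0 x.re with hre | hre
  · rw [← hone]
    exact right_half h1 hp hα hx hre
  · -- left half: crude bound
    have hP := norm_Pn_sub (α := α) (n := p + 1) (by linarith) (by push_cast; linarith) (x := x) hx.le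
    have h3 := (abs_le.1 hP).2
    have hw2 : ‖1 + x‖ ^ 2 ≤ 2 := by
      rw [← Complex.normSq_eq_norm_sq, Complex.normSq_apply]
      have : x.re * x.re + x.im * x.im = 1 := by
        rw [← Complex.normSq_apply, Complex.normSq_eq_norm_sq, hx]
        norm_num
      simp only [Complex.add_re, Complex.one_re, Complex.add_im, Complex.one_im]
      linarith
    have hw : ‖1 + x‖ ≤ Real.sqrt 2 := Real.le_sqrt_of_sq_le hw2
    have h4 : ‖1 + x‖ ^ α ≤ Real.sqrt 2 ^ α := Real.rpow_le_rpow (norm_nonneg _) hw (by linarith)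
    have hs14 : (1.4 : ℝ) ≤ Real.sqrt 2 := by
      rw [show (1.4 : ℝ) = Real.sqrt (1.4 ^ 2) by rw [Real.sqrt_sq (by norm_num)]]
      exact Real.sqrt_le_sqrt (by norm_num)
    have h5 : (1.4 : ℝ) ≤ Real.sqrt 2 ^ α := by
      calc (1.4 : ℝ) ≤ Real.sqrt 2 := hs14
        _ = Real.sqrt 2 ^ (1 : ℝ) := (Real.rpow_one _).symm
        _ ≤ Real.sqrt 2 ^ α := Real.rpow_le_rpow_of_exponent_le (by linarith) h1
    have h6 : (2 : ℝ) ^ α = Real.sqrt 2 ^ α * Real.sqrt 2 ^ α := by
      rw [← Real.mul_rpow (Real.sqrt_nonneg _) (Real.sqrt_nonneg _), Real.mul_self_sqrt (by norm_num)]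
    nlinarith

end Q73.Brannan
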