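import Pool.Agent.Q73.Brannan.Large

/-!
# Monotonicity of `|P_n(e^{iθ})|` near `θ = 0`, for `α ≥ 1`
-/

set_option autoImplicit false

open Filter Topology

namespace Q73.Brannan

theorem Pn_pascal (α : ℝ) (p : ℕ) (x : ℂ) :
    Pn α (p + 1) x = (bc (α - 1) (p + 1) : ℂ) * x ^ (p + 1) + (1 + x) * Pn (α - 1) p x := by
  unfold Pn
  rw [Finset.sum_range_succ']
  have h1 : ∀ k ∈ Finset.range (p + 1), (bc α (k + 1) : ℂ) * x ^ (k + 1) =
      (bc (α - 1) (k + 1) : ℂ) * x ^ (k + 1) + x * ((bc (α - 1) k : ℂ) * x ^ k) := by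
    intro k _
    rw [bc_pascal' α k]
    push_cast
    ring
  rw [Finset.sum_congr rfl h1, Finset.sum_add_distrib, ← Finset.mul_sum, bc_zero]
  have h2 := Finset.sum_range_succ' (fun k => (bc (α - 1) k : ℂ) * x ^ k) (p + 1)
  have h3 := Finset.sum_range_succ (fun k => (bc (α - 1) k : ℂ) * x ^ k) (p + 1)
  rw [h3] at h2
  simp only [bc_zero, Complex.ofReal_one, pow_zero, mul_one] at h2 ⊢
  linear_combination -h2

theorem hasDerivAt_Pn (α : ℝ) (p : ℕ) (θ : ℝ) :
    HasDerivAt (fun t : ℝ => Pn α (p + 1) (Complex.exp (t * Complex.I)))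
      (Complex.I * α * Complex.exp (θ * Complex.I) * Pn (α - 1) p (Complex.exp (θ * Complex.I))) θ := by
  have h1 : HasDerivAt (fun t : ℝ => Complex.exp (t * Complex.I))
      (Complex.exp (θ * Complex.I) * Complex.I) θ := by
    have := ((Complex.ofRealCLM.hasDerivAt (x := θ)).mul_const Complex.I).cexp
    simpa using this
  have h2 : ∀ k ∈ Finset.range (p + 1 + 1), HasDerivAt
      (fun t : ℝ => (bc α k : ℂ) * Complex.exp (t * Complex.I) ^ k)
      ((bc α k : ℂ) * ((k : ℂ) * Complex.exp (θ * Complex.I) ^ (k - 1) *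
        (Complex.exp (θ * Complex.I) * Complex.I))) θ := by
    intro k _
    exact (h1.fun_pow k).const_mul _
  have h3 := HasDerivAt.fun_sum h2
  unfold Pn
  refine h3.congr_deriv ?_
  rw [Finset.sum_range_succ']
  simp only [Nat.cast_zero, zero_mul, mul_zero, add_zero]
  rw [Finset.mul_sum]
  refine Finset.sum_congr rfl fun k _ => ?_
  have h4 := bc_absorb α k
  have h5 : ((k : ℂ) + 1) * (bc α (k + 1) : ℂ) = α * (bc (α - 1) k : ℂ) := by exact_mod_cast h4
  simp only [Nat.add_sub_cancel]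
  push_cast
  linear_combination (Complex.exp (θ * Complex.I) ^ k * Complex.exp (θ * Complex.I) * Complex.I) * h5

theorem abs_sin_nat_mul (j : ℕ) (θ : ℝ) : |Real.sin (j * θ)| ≤ j * |Real.sin θ| := by
  induction j with
  | zero => simp
  | succ j ih =>
    rw [show ((j + 1 : ℕ) : ℝ) * θ = j * θ + θ by push_cast; ring, Real.sin_add]
    have h1 := abs_add_le (Real.sin (j * θ) * Real.cos θ) (Real.cos (j * θ) * Real.sin θ)
    rw [abs_mul, abs_mul] at h1
    have h2 : |Real.sin (j * θ)| * |Real.cos θ| ≤ |Real.sin (j * θ)| :=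
      mul_le_of_le_one_right (abs_nonneg _) (Real.abs_cos_le_one _)
    have h3 : |Real.cos (j * θ)| * |Real.sin θ| ≤ |Real.sin θ| :=
      mul_le_of_le_one_left (abs_nonneg _) (Real.abs_cos_le_one _)
    push_cast
    linarith

/-- the derivative of the squared modulus -/
theorem hasDerivAt_sq (α : ℝ) (p : ℕ) (θ : ℝ) :
    HasDerivAt (fun t : ℝ => ‖Pn α (p + 1) (Complex.exp (t * Complex.I))‖ ^ 2)
      (-(2 * α) * (Real.sin θ * ‖Pn (α - 1) p (Complex.exp (θ * Complex.I))‖ ^ 2 +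
        bc (α - 1) (p + 1) * (Complex.exp (-(p * θ : ℝ) * Complex.I) *
          Pn (α - 1) p (Complex.exp (θ * Complex.I))).im)) θ := by
  have h := (hasDerivAt_Pn α p θ).norm_sq
  convert h using 1
  set x := Complex.exp (θ * Complex.I) with hx
  set Q := Pn (α - 1) p x with hQ
  set b := bc (α - 1) (p + 1) with hb
  rw [Pn_pascal α p x, ← hb, ← hQ]
  have hxn : x ^ p = Complex.exp ((p * θ : ℝ) * Complex.I) := by
    rw [hx, ← Complex.exp_nat_mul]
    congr 1
    push_cast
    ring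
  have hxp : (starRingEnd ℂ) (x ^ p) = Complex.exp (-(p * θ : ℝ) * Complex.I) := by
    rw [hxn, ← Complex.exp_conj]
    congr 1
    simp
  have hxx : (starRingEnd ℂ) x * x = 1 := by
    rw [hx, ← Complex.exp_conj, ← Complex.exp_add]
    simp
  have hre : x.re = Real.cos θ := by
    rw [hx, Complex.exp_ofReal_mul_I_re]
  have him : x.im = Real.sin θ := by
    rw [hx, Complex.exp_ofReal_mul_I_im]
  rw [← hxp]
  have e1 : inner ℝ ((b : ℂ) * x ^ (p + 1) + (1 + x) * Q) (Complex.I * α * x * Q) =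
      ((Complex.I * α * x * Q) * (starRingEnd ℂ) ((b : ℂ) * x ^ (p + 1) + (1 + x) * Q)).re := by
    rw [Complex.inner]
  rw [e1]
  have e2 : (Complex.I * α * x * Q) * (starRingEnd ℂ) ((b : ℂ) * x ^ (p + 1) + (1 + x) * Q) =
      ((α * b : ℝ) : ℂ) * (Complex.I * ((starRingEnd ℂ) (x ^ p) * Q)) +
      ((α * ‖Q‖ ^ 2 : ℝ) : ℂ) * (Complex.I * (x + 1)) := by
    have hQQ : Q * (starRingEnd ℂ) Q = ((‖Q‖ ^ 2 : ℝ) : ℂ) := by
      rw [Complex.mul_conj, Complex.normSq_eq_norm_sq]
    simp only [map_add, map_mul, map_pow, map_one, Complex.conj_ofReal]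
    rw [Complex.ofReal_mul α (‖Q‖ ^ 2), ← hQQ]
    have hp : (starRingEnd ℂ) x ^ (p + 1) * x = (starRingEnd ℂ) x ^ p := by
      rw [pow_succ, mul_assoc, hxx, mul_one]
    push_cast
    linear_combination (Complex.I * α * Q * b) * hp +
      (Complex.I * α * Q * (starRingEnd ℂ) Q) * hxx
  rw [e2, Complex.add_re, Complex.re_ofReal_mul, Complex.re_ofReal_mul, Complex.I_mul_re,
    Complex.I_mul_re, Complex.add_im, Complex.one_im, him]
  ring

theorem im_bound (a : ℝ) (ha : 0 ≤ a) (p : ℕ) (θ : ℝ) :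
    |(Complex.exp (-(p * θ : ℝ) * Complex.I) * Pn a p (Complex.exp (θ * Complex.I))).im| ≤
      p * |Real.sin θ| * (2 * 2 ^ a) := by
  unfold Pn
  rw [Finset.mul_sum, Complex.im_sum]
  refine (Finset.abs_sum_le_sum_abs _ _).trans ?_
  have h1 : ∀ k ∈ Finset.range (p + 1),
      |(Complex.exp (-(p * θ : ℝ) * Complex.I) *
        ((bc a k : ℂ) * Complex.exp (θ * Complex.I) ^ k)).im| ≤ (p * |Real.sin θ|) * |bc a k| := by
    intro k hk
    have hk' : k ≤ p := by
      have := Finset.mem_range.1 hk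
      omega
    have e : Complex.exp (-(p * θ : ℝ) * Complex.I) * ((bc a k : ℂ) * Complex.exp (θ * Complex.I) ^ k) =
        (bc a k : ℂ) * Complex.exp ((-(((p - k : ℕ) : ℝ) * θ) : ℝ) * Complex.I) := by
      rw [← Complex.exp_nat_mul]
      rw [show Complex.exp (-(p * θ : ℝ) * Complex.I) * ((bc a k : ℂ) * Complex.exp (k * (θ * Complex.I)))
        = (bc a k : ℂ) * (Complex.exp (-(p * θ : ℝ) * Complex.I) * Complex.exp (k * (θ * Complex.I))) by
          ring, ← Complex.exp_add]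
      congr 2
      push_cast [Nat.cast_sub hk']
      ring
    rw [e, Complex.im_ofReal_mul, Complex.exp_ofReal_mul_I_im, abs_mul, Real.sin_neg, abs_neg, mul_comm]
    refine mul_le_mul_of_nonneg_right ?_ (abs_nonneg _)
    refine (abs_sin_nat_mul _ _).trans ?_
    refine mul_le_mul_of_nonneg_right ?_ (abs_nonneg _)
    exact_mod_cast Nat.sub_le p k
  refine (Finset.sum_le_sum h1).trans ?_
  rw [← Finset.mul_sum]
  exact mul_le_mul_of_nonneg_left (sum_abs_le' ha (p + 1)) (by positivity)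

end Q73.Brannan
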